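import Pool.Agent.helper93.TV.Spec1

/-!
# Row tv:H0 (MP_29f1cd): the average commutes with the face 0
-/

set_option autoImplicit false
set_option linter.unusedVariables false

namespace Pool.Agent.helper93.TV

open BigOperators Finset Matrix

section

variable {I V : Type} [Fintype I] [DecidableEq I] [Fintype V] [DecidableEq V]

theorem H0_L12 (A : Matrix (V × V) (V × V) ℂ) (M : Matrix (V × V × V) (V × V × V) ℂ)
    (x1 x2 x3 : V) (y : V × V × V) :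
    (L12 A * M) (x1, x2, x3) y = ∑ μ, ∑ ρ, A (x1, x2) (μ, ρ) * M (μ, ρ, x3) y := by
  rw [Matrix.mul_apply, Fintype.sum_prod_type]
  refine Finset.sum_congr rfl fun μ _ => ?_
  rw [Fintype.sum_prod_type]
  refine Finset.sum_congr rfl fun ρ _ => ?_
  rw [Finset.sum_eq_single x3]
  · simp [L12]
  · intro z _ hz
    simp [L12, Ne.symm hz]
  · intro h
    exact absurd (Finset.mem_univ _) h

theorem H0_L23 (A : Matrix (V × V) (V × V) ℂ) (M : Matrix (V × V × V) (V × V × V) ℂ)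
    (x1 x2 x3 : V) (y : V × V × V) :
    (L23 A * M) (x1, x2, x3) y = ∑ σ, ∑ ζ, A (x2, x3) (σ, ζ) * M (x1, σ, ζ) y := by
  rw [Matrix.mul_apply, Fintype.sum_prod_type, Finset.sum_eq_single x1]
  · rw [Fintype.sum_prod_type]
    refine Finset.sum_congr rfl fun σ _ => Finset.sum_congr rfl fun ζ _ => ?_
    simp [L23]
  · intro z _ hz
    refine Finset.sum_eq_zero fun w _ => ?_
    simp [L23, Ne.symm hz]
  · intro h
    exact absurd (Finset.mem_univ _) h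

theorem H0_L12H (A : Matrix (V × V) (V × V) ℂ) (M : Matrix (V × V × V) (V × V × V) ℂ)
    (y1 y2 y3 : V) (x : V × V × V) :
    (M * (L12 A)ᴴ) x (y1, y2, y3) = ∑ μ, ∑ ρ, M x (μ, ρ, y3) * star (A (y1, y2) (μ, ρ)) := by
  rw [Matrix.mul_apply, Fintype.sum_prod_type]
  refine Finset.sum_congr rfl fun μ _ => ?_
  rw [Fintype.sum_prod_type]
  refine Finset.sum_congr rfl fun ρ _ => ?_
  rw [Finset.sum_eq_single y3]
  · simp [L12, Matrix.conjTranspose_apply]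
  · intro z _ hz
    simp [L12, Matrix.conjTranspose_apply, Ne.symm hz]
  · intro h
    exact absurd (Finset.mem_univ _) h

theorem H0_L23H (A : Matrix (V × V) (V × V) ℂ) (M : Matrix (V × V × V) (V × V × V) ℂ)
    (y1 y2 y3 : V) (x : V × V × V) :
    (M * (L23 A)ᴴ) x (y1, y2, y3) = ∑ σ, ∑ ζ, M x (y1, σ, ζ) * star (A (y2, y3) (σ, ζ)) := by
  rw [Matrix.mul_apply, Fintype.sum_prod_type, Finset.sum_eq_single y1]
  · rw [Fintype.sum_prod_type]
    refine Finset.sum_congr rfl fun σ _ => Finset.sum_congr rfl fun ζ _ => ?_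
    simp [L23, Matrix.conjTranspose_apply]
  · intro z _ hz
    refine Finset.sum_eq_zero fun w _ => ?_
    simp [L23, Matrix.conjTranspose_apply, Ne.symm hz]
  · intro h
    exact absurd (Finset.mem_univ _) h

omit [DecidableEq V] in
theorem H0_re (f : V → V → V → V → V → ℂ) :
    ∑ a, ∑ b, ∑ c, ∑ d, ∑ e, f a b c d e = ∑ c, ∑ d, ∑ a, ∑ e, ∑ b, f a b c d e := by
  have h1 : ∀ a, ∑ b, ∑ c, ∑ d, ∑ e, f a b c d e = ∑ c, ∑ d, ∑ e, ∑ b, f a b c d e := by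
    intro a
    rw [Finset.sum_comm]
    refine Finset.sum_congr rfl fun c _ => ?_
    rw [Finset.sum_comm]
    refine Finset.sum_congr rfl fun d _ => ?_
    rw [Finset.sum_comm]
  rw [Finset.sum_congr rfl fun a _ => h1 a, Finset.sum_comm]
  refine Finset.sum_congr rfl fun c _ => ?_
  rw [Finset.sum_comm]

/-- The coefficient. -/
def H0_K (F : V → V → V → V → ℂ) (Y : Matrix (V × V) (V × V) ℂ) (x1 x2 y1 y2 : V)
    (i : (V × V) × (V × V) × (V × V)) : ℂ :=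
  F x1 x2 i.2.1.1 i.2.1.2 * Y (i.2.1.1, i.2.2.2) (i.1.1, i.2.2.1) * star (F y1 y2 i.1.1 i.1.2)

theorem H0_f0 (F : V → V → V → V → ℂ) (Y : Matrix (V × V) (V × V) ℂ) (x1 x2 y1 y2 ε ε' : V) :
    f0 F Y (x1, x2, ε) (y1, y2, ε') = ∑ i : (V × V) × (V × V) × (V × V),
      H0_K F Y x1 x2 y1 y2 i *
        ∑ ζ, F i.2.1.2 ε i.2.2.2 ζ * star (F i.1.2 ε' i.2.2.1 ζ) := by
  unfold f0
  rw [H0_L12H]
  simp only [Fintype.sum_prod_type]
  refine Finset.sum_congr rfl fun μ' _ => Finset.sum_congr rfl fun ρ' _ => ?_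
  rw [H0_L23H]
  have h1 : ∀ σ' ζ', (L12 (Fm F) * L23 (Fm F) * L12 Y) (x1, x2, ε) (μ', σ', ζ')
      = ∑ μ, ∑ ρ, ∑ σ, F x1 x2 μ ρ * (F ρ ε σ ζ' * Y (μ, σ) (μ', σ')) := by
    intro σ' ζ'
    rw [Matrix.mul_assoc, H0_L12]
    refine Finset.sum_congr rfl fun μ _ => Finset.sum_congr rfl fun ρ _ => ?_
    rw [H0_L23, Finset.mul_sum]
    refine Finset.sum_congr rfl fun σ _ => ?_
    rw [Finset.sum_eq_single ζ']
    · simp [L12, Fm]
    · intro z _ hz
      simp [L12, hz]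
    · intro h
      exact absurd (Finset.mem_univ _) h
  simp only [h1]
  have h2 : (∑ σ', ∑ ζ', (∑ μ, ∑ ρ, ∑ σ, F x1 x2 μ ρ * (F ρ ε σ ζ' * Y (μ, σ) (μ', σ'))) *
      star (Fm F (ρ', ε') (σ', ζ'))) * star (Fm F (y1, y2) (μ', ρ'))
      = ∑ σ', ∑ ζ', ∑ μ, ∑ ρ, ∑ σ, H0_K F Y x1 x2 y1 y2 ((μ', ρ'), (μ, ρ), (σ', σ)) *
        (F ρ ε σ ζ' * star (F ρ' ε' σ' ζ')) := by
    rw [Finset.sum_mul]
    refine Finset.sum_congr rfl fun σ' _ => ?_
    rw [Finset.sum_mul]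
    refine Finset.sum_congr rfl fun ζ' _ => ?_
    rw [Finset.sum_mul, Finset.sum_mul]
    refine Finset.sum_congr rfl fun μ _ => ?_
    rw [Finset.sum_mul, Finset.sum_mul]
    refine Finset.sum_congr rfl fun ρ _ => ?_
    rw [Finset.sum_mul, Finset.sum_mul]
    refine Finset.sum_congr rfl fun σ _ => ?_
    simp only [H0_K, Fm]
    ring
  rw [h2, H0_re (fun σ' ζ' μ ρ σ => H0_K F Y x1 x2 y1 y2 ((μ', ρ'), (μ, ρ), (σ', σ)) *
        (F ρ ε σ ζ' * star (F ρ' ε' σ' ζ')))]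
  refine Finset.sum_congr rfl fun μ _ => Finset.sum_congr rfl fun ρ _ =>
    Finset.sum_congr rfl fun σ' _ => Finset.sum_congr rfl fun σ _ => ?_
  rw [Finset.mul_sum]

theorem H0_g0 (F : V → V → V → V → ℂ) (Z : Matrix V V ℂ) (x1 x2 y1 y2 : V) :
    g0 F Z (x1, x2) (y1, y2) =
      ∑ μ', ∑ ρ', ∑ μ, F x1 x2 μ ρ' * Z μ μ' * star (F y1 y2 μ' ρ') := by
  unfold g0
  rw [Matrix.mul_apply, Fintype.sum_prod_type]
  refine Finset.sum_congr rfl fun μ' _ => Finset.sum_congr rfl fun ρ' _ => ?_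
  rw [Matrix.mul_apply, Fintype.sum_prod_type, Finset.sum_mul]
  refine Finset.sum_congr rfl fun μ _ => ?_
  rw [Finset.sum_eq_single ρ']
  · simp [T1, Fm, Matrix.conjTranspose_apply]
  · intro z _ hz
    simp [T1, hz]
  · intro h
    exact absurd (Finset.mem_univ _) h

end

theorem H0 : H0_stmt := by
  intro q2 u2 s2 I V _ _ _ _ D F hF hD Y hY
  have Q := q2 u2 s2 I V D F hF hD
  have hsupp := hF.uf.conn.supp
  ext ⟨x1, x2⟩ ⟨y1, y2⟩
  have hL : D.h3 F (f0 F Y) (x1, x2) (y1, y2) = (((D.gd F)⁻¹ : ℝ) : ℂ) *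
      ∑ i : (V × V) × (V × V) × (V × V), H0_K F Y x1 x2 y1 y2 i *
        (if i.2.1.2 = i.1.2 ∧ i.2.2.2 = i.2.2.1 ∧ D.s2 i.2.1.2 = D.s1 i.2.2.2 then
          ((D.dm F (D.s2 i.2.2.2) * D.dm F (D.t i.2.2.2) / D.dm F (D.s2 i.2.1.2) : ℝ) : ℂ)
          else 0) := by
    unfold FD.h3
    congr 1
    have e1 : ∀ ε, (if D.t (x1, x2).2 = D.s1 ε then
        D.wt F ε * f0 F Y ((x1, x2).1, (x1, x2).2, ε) ((y1, y2).1, (y1, y2).2, ε) else 0)
        = ∑ i : (V × V) × (V × V) × (V × V), H0_K F Y x1 x2 y1 y2 i *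
          (if D.t x2 = D.s1 ε then D.wt F ε *
            ∑ ζ, F i.2.1.2 ε i.2.2.2 ζ * star (F i.1.2 ε i.2.2.1 ζ) else 0) := by
      intro ε
      by_cases h : D.t x2 = D.s1 ε
      · simp only [h, if_true]
        rw [H0_f0, Finset.mul_sum]
        refine Finset.sum_congr rfl fun i _ => ?_
        ring
      · simp [h]
    rw [Finset.sum_congr rfl fun ε _ => e1 ε, Finset.sum_comm]
    refine Finset.sum_congr rfl fun i _ => ?_
    obtain ⟨⟨μ', ρ'⟩, ⟨μ, ρ⟩, ⟨σ', σ⟩⟩ := i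
    rw [← Finset.mul_sum]
    by_cases hx : F x1 x2 μ ρ = 0
    · simp [H0_K, hx]
    congr 1
    have hcp := (hsupp _ _ _ _ hx).1
    have htρ : D.t x2 = D.t ρ := hcp.2.2.2.2.2
    have e2 : ∀ ε, (if D.t x2 = D.s1 ε then D.wt F ε *
        ∑ ζ, F ρ ε σ ζ * star (F ρ' ε σ' ζ) else 0)
        = ((D.dm F (D.s2 σ) / D.dm F (D.t ρ) : ℝ) : ℂ) *
          ∑ ζ, (D.dm F (D.t ε) : ℂ) * F ρ ε σ ζ * star (F ρ' ε σ' ζ) := by
      intro ε
      by_cases h : D.t x2 = D.s1 ε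
      · rw [if_pos h, Finset.mul_sum, Finset.mul_sum]
        refine Finset.sum_congr rfl fun ζ _ => ?_
        by_cases hz : F ρ ε σ ζ = 0
        · simp [hz]
        · have hc := (hsupp _ _ _ _ hz).1
          have a1 : D.t ρ = D.s1 ε := hc.1
          have a2 : D.s2 ε = D.s2 σ := hc.2.2.2.2.1
          unfold FD.wt
          rw [← a1, a2]
          push_cast
          ring
      · rw [if_neg h, Finset.mul_sum]
        symm
        refine Finset.sum_eq_zero fun ζ _ => ?_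
        by_cases hz : F ρ ε σ ζ = 0
        · simp [hz]
        · exact absurd (htρ.trans (hsupp _ _ _ _ hz).1.1) h
    change ∑ ε, (if D.t x2 = D.s1 ε then D.wt F ε *
        ∑ ζ, F ρ ε σ ζ * star (F ρ' ε σ' ζ) else 0) = _
    rw [Finset.sum_congr rfl fun ε _ => e2 ε, ← Finset.mul_sum, Q ρ σ ρ' σ']
    change _ = (if ρ = ρ' ∧ σ = σ' ∧ D.s2 ρ = D.s1 σ then
          ((D.dm F (D.s2 σ) * D.dm F (D.t σ) / D.dm F (D.s2 ρ) : ℝ) : ℂ) else 0)
    by_cases h : ρ = ρ' ∧ σ = σ' ∧ D.s2 ρ = D.s1 σ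
    · rw [if_pos h, if_pos h, ← Complex.ofReal_mul]
      congr 1
      have h1 := (hD.pos (D.t ρ)).ne'
      have h2 := (hD.pos (D.s2 ρ)).ne'
      field_simp
    · rw [if_neg h, if_neg h, mul_zero]
  rw [hL, H0_g0, Finset.mul_sum]
  simp only [Fintype.sum_prod_type]
  refine Finset.sum_congr rfl fun μ' _ => ?_
  refine Finset.sum_congr rfl fun ρ' _ => ?_
  refine Finset.sum_congr rfl fun μ _ => ?_
  rw [Finset.sum_eq_single ρ']
  · have e3 : ∀ σ', ∑ σ, (((D.gd F)⁻¹ : ℝ) : ℂ) *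
        (H0_K F Y x1 x2 y1 y2 ((μ', ρ'), (μ, ρ'), (σ', σ)) *
          (if ρ' = ρ' ∧ σ = σ' ∧ D.s2 ρ' = D.s1 σ then
          ((D.dm F (D.s2 σ) * D.dm F (D.t σ) / D.dm F (D.s2 ρ') : ℝ) : ℂ) else 0))
        = (((D.gd F)⁻¹ : ℝ) : ℂ) * (H0_K F Y x1 x2 y1 y2 ((μ', ρ'), (μ, ρ'), (σ', σ')) *
          (if D.s2 ρ' = D.s1 σ' then
          ((D.dm F (D.s2 σ') * D.dm F (D.t σ') / D.dm F (D.s2 ρ') : ℝ) : ℂ) else 0)) := by
      intro σ'
      rw [Finset.sum_eq_single σ']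
      · simp
      · intro σ _ hσ
        simp [hσ]
      · intro h
        exact absurd (Finset.mem_univ _) h
    rw [Finset.sum_congr rfl fun σ' _ => e3 σ']
    by_cases hx : F x1 x2 μ ρ' = 0
    · simp [H0_K, hx]
    have hcp := (hsupp _ _ _ _ hx).1
    have hμρ : D.t μ = D.s2 ρ' := hcp.2.1
    unfold FD.h2
    rw [← mul_assoc (F x1 x2 μ ρ'), Finset.mul_sum, Finset.sum_mul]
    refine Finset.sum_congr rfl fun σ _ => ?_
    rw [hμρ]
    by_cases h : D.s2 ρ' = D.s1 σ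
    · rw [if_pos h, if_pos h, h]
      simp only [H0_K, FD.wt]
      ring
    · rw [if_neg h, if_neg h]
      ring
  · intro ρ _ hρ
    refine Finset.sum_eq_zero fun σ' _ => Finset.sum_eq_zero fun σ _ => ?_
    simp [hρ]
  · intro h
    exact absurd (Finset.mem_univ _) h

end Pool.Agent.helper93.TV
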